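import Pool.Agent.L5helper72.BD.Defs

set_option autoImplicit false

namespace Pool.Agent.L5helper46.BD
open Finset Pool.Agent.L5helper72.BD

theorem MOM_holds : St_MOM := by
  intro P z w J m S hz hJ hS hzS hw hm
  classical
  obtain ⟨Q, hQ⟩ : ∃ Q : ℕ, Q = ∏ p ∈ S, p := ⟨_, rfl⟩
  obtain ⟨G, hG⟩ : ∃ G : ℝ, G = ∏ p ∈ S, ((p : ℝ) - 1) := ⟨_, rfl⟩
  obtain ⟨R, hRd⟩ : ∃ R : ℝ, R = (1 + 1 / (z : ℝ)) ^ w := ⟨_, rfl⟩
  have hz0 : (0 : ℝ) < z := by exact_mod_cast hz
  have hR : 1 ≤ R := by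
    rw [hRd]
    exact one_le_pow₀ (by have : 0 < 1 / (z : ℝ) := by positivity
                          linarith)
  have hp2 : ∀ p ∈ S, (2 : ℝ) ≤ p := fun p hp => by exact_mod_cast (hS p hp).1.two_le
  have hQr : (Q : ℝ) = ∏ p ∈ S, (p : ℝ) := by rw [hQ]; push_cast; rfl
  have hQ0 : (0 : ℝ) < Q := by
    rw [hQr]
    exact prod_pos fun p hp => by linarith [hp2 p hp]
  have hG0 : 0 < G := by
    rw [hG]
    exact prod_pos fun p hp => by linarith [hp2 p hp]
  have hprod : ∏ p ∈ S, (1 - 1 / (p : ℝ)) = G / Q := by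
    rw [hG, hQr, ← prod_div_distrib]
    refine prod_congr rfl fun p hp => ?_
    have := hp2 p hp
    have h0 : (p : ℝ) ≠ 0 := by linarith
    field_simp
  have hJ0 : (0 : ℝ) < J := by exact_mod_cast hJ
  have hcG : ((∏ p ∈ S, (p - 1) : ℕ) : ℝ) = G := by
    rw [Nat.cast_prod, hG]
    refine prod_congr rfl fun p hp => ?_
    have := (hS p hp).1.one_lt.le
    push_cast [this]
    ring
  have hone : ∀ j, (#{t ∈ range Q | Good P S (t + j)} : ℝ) = G := by
    intro j
    rw [hQ, card_one hS j, hcG]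
  have htwo : ∀ i j, i < J → j < J → (#{t ∈ range Q | Good P S (t + i) ∧ Good P S (t + j)} : ℝ) ≤
      (if i = j then G else 0) + G ^ 2 / Q * R := by
    intro i j hi hj
    have hnn : 0 ≤ G ^ 2 / Q * R := by positivity
    split_ifs with h
    · subst h
      simp only [and_self]
      rw [hone]
      linarith
    · have := card_two_real hz hS hzS hw hi hj h
      rw [← hQ, ← hQr, ← hG, ← hRd] at this
      linarith
  have hY : ∀ t, (Y P S J t : ℝ) = ∑ j ∈ range J, if Good P S (t + j) then (1 : ℝ) else 0 := by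
    intro t
    unfold Y
    rw [card_filter]
    push_cast
    rfl
  have h1 : ∑ t ∈ range Q, (Y P S J t : ℝ) = J * G := by
    simp only [hY]
    rw [sum_comm]
    have : ∀ j ∈ range J, ∑ t ∈ range Q, (if Good P S (t + j) then (1 : ℝ) else 0) = G := by
      intro j _
      rw [← hone j, card_filter]
      push_cast
      rfl
    rw [sum_congr rfl this]
    simp
  have h2 : ∑ t ∈ range Q, (Y P S J t : ℝ) ^ 2 ≤ J * G + J ^ 2 * (G ^ 2 / Q * R) := by
    have e1 : ∀ t, (Y P S J t : ℝ) ^ 2 = ∑ i ∈ range J, ∑ j ∈ range J,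
        if Good P S (t + i) ∧ Good P S (t + j) then (1 : ℝ) else 0 := by
      intro t
      rw [hY, sq, sum_mul_sum]
      refine sum_congr rfl fun i _ => sum_congr rfl fun j _ => ?_
      by_cases ha : Good P S (t + i) <;> by_cases hb : Good P S (t + j) <;> simp [ha, hb]
    simp only [e1]
    rw [sum_comm]
    have e2 : ∀ i ∈ range J, ∑ t ∈ range Q, ∑ j ∈ range J,
        (if Good P S (t + i) ∧ Good P S (t + j) then (1 : ℝ) else 0) ≤ G + J * (G ^ 2 / Q * R) := by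
      intro i hi
      rw [sum_comm]
      have e3 : ∀ j ∈ range J, ∑ t ∈ range Q,
          (if Good P S (t + i) ∧ Good P S (t + j) then (1 : ℝ) else 0) ≤
          (if i = j then G else 0) + G ^ 2 / Q * R := by
        intro j hj
        refine le_trans (le_of_eq ?_) (htwo i j (mem_range.1 hi) (mem_range.1 hj))
        rw [card_filter]
        push_cast
        rfl
      refine (sum_le_sum e3).trans (le_of_eq ?_)
      rw [sum_add_distrib, sum_ite_eq, if_pos hi]
      simp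
    refine (sum_le_sum e2).trans (le_of_eq ?_)
    simp
    ring
  rw [hprod] at hm ⊢
  obtain ⟨μ, hμ⟩ : ∃ μ : ℝ, μ = J * (G / Q) := ⟨_, rfl⟩
  rw [← hμ] at hm ⊢
  rw [← hRd, ← hQr, ← hQ]
  have hμ0 : 0 < μ := by rw [hμ]; positivity
  have hJG : (J : ℝ) * G = Q * μ := by rw [hμ]; field_simp
  have hJG2 : (J : ℝ) ^ 2 * (G ^ 2 / Q * R) = Q * μ ^ 2 * R := by rw [hμ]; field_simp
  rw [hJG] at h1 h2
  rw [hJG2] at h2
  have h3 : ∑ t ∈ range Q, ((Y P S J t : ℝ) - μ) ^ 2 ≤ Q * μ + Q * μ ^ 2 * (R - 1) := by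
    have e1 : ∑ t ∈ range Q, ((Y P S J t : ℝ) - μ) ^ 2 =
        ∑ t ∈ range Q, (Y P S J t : ℝ) ^ 2 - 2 * μ * ∑ t ∈ range Q, (Y P S J t : ℝ) + Q * μ ^ 2 := by
      rw [mul_sum, ← sum_sub_distrib]
      have : (Q : ℝ) * μ ^ 2 = ∑ t ∈ range Q, μ ^ 2 := by simp
      rw [this, ← sum_add_distrib]
      exact sum_congr rfl fun t _ => by ring
    rw [e1, h1]
    nlinarith [h2]
  have h4 : (#{t ∈ range Q | Y P S J t ≤ m} : ℝ) * (μ ^ 2 / 4) ≤ ∑ t ∈ range Q, ((Y P S J t : ℝ) - μ) ^ 2 := by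
    rw [← nsmul_eq_mul, ← sum_const]
    refine (sum_le_sum fun t ht => ?_).trans
      (sum_le_sum_of_subset_of_nonneg (filter_subset _ _) fun t _ _ => sq_nonneg _)
    have h5 : (Y P S J t : ℝ) ≤ m := by exact_mod_cast (mem_filter.1 ht).2
    nlinarith
  have h5 := h4.trans h3
  have h6 : 0 < μ ^ 2 / 4 := by positivity
  rw [← mul_le_mul_iff_left₀ h6]
  refine h5.trans (le_of_eq ?_)
  field_simp
  
end Pool.Agent.L5helper46.BD
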